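import Pool.Agent.H855Z.HaarProof

namespace Pool.Agent.Results.MP_092965_lc.ALeftRightDiffer

open Pool.Agent.H855Z.Haar

/-- There is a Polish group amenable at `1` with a right Haar null set that is not left Haar
null. -/
theorem result : ∃ (G : Type) (_ : Group G) (_ : TopologicalSpace G) (_ : IsTopologicalGroup G)
    (_ : PolishSpace G) (_ : MeasurableSpace G) (_ : BorelSpace G),
    AmenableAtOne G ∧ ∃ A : Set G, RightHaarNull A ∧ ¬ LeftHaarNull A :=
  ⟨ℕ → Dih, inferInstance, inferInstance, inferInstance, polish, inferInstance,
    inferInstance, amenable, Bset, right_null, not_left_null⟩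

end Pool.Agent.Results.MP_092965_lc.ALeftRightDiffer
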